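import Mathlib
import Pool.Agent.J4.H58.DEL.Asm
import Pool.Agent.J4.H58.EX.Main2

/-!
# Deligne's period conjecture for the Artin twists of a motive: exact reduction to the motive itself
and its nontrivial linear twists of arbitrarily large rank

The other definitions are in `Pool.Agent.J4.H58.DEL.Defs` and `Pool.Agent.K4H74.SC.Core`.
-/

set_option autoImplicit false

namespace Pool.Agent.Results.MP_cd171c_nt.LargeRankTwists

open NumberField Pool.Agent.K4H74 Pool.Agent.K4H74.SK Pool.Agent.K4H77 Pool.Agent.K4H34.AL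
  Pool.Agent.J4.H58.DEL Pool.Agent.K4H74.ST

/-- The number of the infinite places `v` of `K` such that the linear character `ψ` is trivial on
the decomposition groups of the places of `L` above `v`. -/
noncomputable def rank {E : Ext} (ψ : G E →* ℂˣ) : ℕ :=
  Nat.card {v : InfinitePlace E.K // ∀ w : InfinitePlace E.L,
    w.comap (algebraMap E.K E.L) = v → ∀ g : G E, w.comap (emb g) = w → ψ g = 1}

/-- The basic characters for `R`: the nontrivial faithful linear characters `ψ` of the (cyclic)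
extensions `L / K` of number fields whose rank is at least `R`. -/
inductive Basic (R : ℕ) : Pair → Prop
  | linear (E : Ext) (ψ : G E →* ℂˣ) : Function.Injective ψ → (∃ g, ψ g ≠ 1) → R ≤ rank ψ →
      Basic R ⟨E, lin ψ⟩

/-- The trivial character of `ℚ`: the twist is the motive itself. -/
def triv : Pair := ⟨⟨ℚ, ℚ⟩, fun _ => 1⟩

/-- `m` is the multiplicity of the trivial character in `χ`. -/
def IsMult {E : Ext} (χ : G E → ℂ) (m : ℤ) : Prop :=
  (m : ℂ) = (Nat.card (G E) : ℂ)⁻¹ * ∑ᶠ g : G E, χ g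

lemma Basic.isChr {R : ℕ} {x : Pair} (h : Basic R x) : IsChr x.2 := by
  cases h with
  | linear E ψ _ _ _ => exact isChr_lin ψ

lemma triv_isChr : IsChr triv.2 := by
  have h1 := isChr_lin (E := ⟨ℚ, ℚ⟩) 1
  have h2 : lin (1 : G ⟨ℚ, ℚ⟩ →* ℂˣ) = fun _ => 1 := by
    funext g
    simp [lin]
  rwa [h2] at h1

/-- the trivial character and the basic ones as one family -/
theorem cons_form {M : Type} [CommGroup M] {A : ArtinInvariant M} {y : Pair} {m : ℤ} {r : ℕ}
    {x : Fin r → Pair} {k : Fin r → ℤ}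
    (h : pval A y = pval A triv ^ m * ∏ i, pval A (x i) ^ k i) :
    pval A y ^ 1 = ∏ i : Fin (r + 1), pval A (Fin.cons (α := fun _ => Pair) triv x i) ^
      (Fin.cons (α := fun _ => ℤ) m k i : ℤ) := by
  rw [pow_one, Fin.prod_univ_succ]
  simp only [Fin.cons_zero, Fin.cons_succ]
  exact h

/-- Let `M` be a motive over `ℚ` with coefficients in `F`, of odd weight `w` and rank `2 n`, let `s`
be an integer with `2 s > w + 2`, and let `c⁺`, `c⁻` be the periods of `M(s)`. For a character `χ`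
of the Galois group of an extension `L / K` of number fields and an embedding `τ` of `F`, the series
for `log L(M_K ⊗ χ, s)` at `τ` converges, and there are the normalised value
`N_τ(χ) = L(M_K ⊗ χ, s) / (c⁺ ^ a c⁻ ^ b)` and, for every automorphism `σ` of `ℂ`, exactly one
defect `d(σ, τ, χ)` with `σ(N_τ(χ)) δ ^ n = d N_{σ τ}(χ^σ)`, `δ` the determinant of `σ` on the
representation induced from `χ^σ`; Deligne's conjecture for `M_K ⊗ χ` at `s` says that
`d(σ, τ, χ) = 1` for all `σ` and `τ`. Let `R` be any natural number.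

(1) Let `m` be the multiplicity of the trivial character in `χ`. There are basic characters `ψ_i`
for `R` and integers `k_i`, the same ones for all `M`, `s`, `c⁺`, `c⁻`, `σ`, `τ`, such that
`L(M_K ⊗ χ, s) = L(M, s)^m ∏ L(M ⊗ ψ_i, s)^(k_i)` (for the logarithms), and the same is true for
the normalised values and for the defects.

(2) For every `σ` and `τ`, if the defects of the basic characters for `R` are `1`: the defect of `χ`
is `1` if `m = 0`, or if the defect of `M` itself is `1`. So Deligne's conjecture for all Artin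
twists of `M` at `s` follows from Deligne's conjecture for `M` and its basic twists.

(3) For every `τ`: all the normalised values are algebraic if those of `M` and of the basic
characters for `R` are. -/
theorem result :
    -- the values and the defects
    (∀ (M : Motive) (P : Point M) (τ : M.Emb) (E : Ext) (χ : G E → ℂ), IsChr χ →
      (∃ l : ℂ, HasSum (lTerm M P.s τ χ) l) ∧ (∃! v : ℂˣ, IsValue P τ χ v) ∧
        ∀ σ : ℂ ≃+* ℂ, ∃! d : ℂˣ, IsDefect P σ τ χ d) ∧
    ∀ R : ℕ,
      -- (1)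
      (∀ (E : Ext) (χ : G E → ℂ), IsChr χ →
        ∃ (m : ℤ) (r : ℕ) (x : Fin r → Pair) (k : Fin r → ℤ), (∀ i, Basic R (x i)) ∧
          IsMult χ m ∧ ∀ (M : Motive) (P : Point M) (τ : M.Emb),
            (∀ (l l₀ : ℂ) (l' : Fin r → ℂ), HasSum (lTerm M P.s τ χ) l →
              HasSum (lTerm M P.s τ triv.2) l₀ → (∀ i, HasSum (lTerm M P.s τ (x i).2) (l' i)) →
                l = m * l₀ + ∑ i, k i * l' i) ∧
            (∀ (v v₀ : ℂ) (v' : Fin r → ℂ), IsValue P τ χ v → IsValue P τ triv.2 v₀ →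
              (∀ i, IsValue P τ (x i).2 (v' i)) → v = v₀ ^ m * ∏ i, v' i ^ k i) ∧
            ∀ (σ : ℂ ≃+* ℂ) (d d₀ : ℂˣ) (d' : Fin r → ℂˣ), IsDefect P σ τ χ d →
              IsDefect P σ τ triv.2 d₀ → (∀ i, IsDefect P σ τ (x i).2 (d' i)) →
                d = d₀ ^ m * ∏ i, d' i ^ k i) ∧
      -- (2)
      (∀ (M : Motive) (P : Point M) (σ : ℂ ≃+* ℂ) (τ : M.Emb),
        (∀ x : Pair, Basic R x → IsDefect P σ τ x.2 1) →
          ∀ (E : Ext) (χ : G E → ℂ), IsChr χ →
            (IsMult χ 0 ∨ IsDefect P σ τ triv.2 1) → IsDefect P σ τ χ 1) ∧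
      -- (3)
      (∀ (M : Motive) (P : Point M) (τ : M.Emb),
        (∀ v : ℂ, IsValue P τ triv.2 v → IsAlgebraic ℚ v) →
        (∀ x : Pair, Basic R x → ∀ v : ℂ, IsValue P τ x.2 v → IsAlgebraic ℚ v) →
          ∀ (E : Ext) (χ : G E → ℂ), IsChr χ → ∀ v : ℂ, IsValue P τ χ v → IsAlgebraic ℚ v) := by
  refine ⟨fun M P τ E χ hχ => ⟨lTerm_summable P τ χ, existsUnique_isValue P τ hχ,
    fun σ => existsUnique_isDefect P σ τ hχ⟩, fun R => ?_⟩
  have hmain : ∀ (E : Ext) (χ : G E → ℂ), IsChr χ →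
        ∃ (m : ℤ) (r : ℕ) (x : Fin r → Pair) (k : Fin r → ℤ), (∀ i, Basic R (x i)) ∧
          IsMult χ m ∧ ∀ (M : Motive) (P : Point M) (τ : M.Emb),
            (∀ (l l₀ : ℂ) (l' : Fin r → ℂ), HasSum (lTerm M P.s τ χ) l →
              HasSum (lTerm M P.s τ triv.2) l₀ → (∀ i, HasSum (lTerm M P.s τ (x i).2) (l' i)) →
                l = m * l₀ + ∑ i, k i * l' i) ∧
            (∀ (v v₀ : ℂ) (v' : Fin r → ℂ), IsValue P τ χ v → IsValue P τ triv.2 v₀ →
              (∀ i, IsValue P τ (x i).2 (v' i)) → v = v₀ ^ m * ∏ i, v' i ^ k i) ∧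
            ∀ (σ : ℂ ≃+* ℂ) (d d₀ : ℂˣ) (d' : Fin r → ℂˣ), IsDefect P σ τ χ d →
              IsDefect P σ τ triv.2 d₀ → (∀ i, IsDefect P σ τ (x i).2 (d' i)) →
                d = d₀ ^ m * ∏ i, d' i ^ k i := by
    intro E χ hχ
    obtain ⟨m, r, x, k, hx, hm, h0⟩ := Pool.Agent.J4.H58.EX.form' allI R (Basic R)
      (fun E ψ h1 h2 h3 => Basic.linear E ψ h1 h2 h3) hχ
    have h := cons_form h0
    have hc : ∀ i : Fin (r + 1), IsChr (Fin.cons (α := fun _ => Pair) triv x i).2 := by
      intro i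
      refine Fin.cases ?_ (fun i => ?_) i
      · exact triv_isChr
      · exact (hx i).isChr
    refine ⟨m, r, x, k, hx, hm, fun M P τ => ⟨fun l l₀ l' hl hl₀ hl' => ?_,
      fun v v₀ v' hv hv₀ hv' => ?_, fun σ d d₀ d' hd hd₀ hd' => ?_⟩⟩
    · have h1 := rel_log h τ hl (l' := Fin.cons (α := fun _ => ℂ) l₀ l') (by
        intro i
        refine Fin.cases ?_ (fun i => ?_) i
        · exact hl₀
        · exact hl' i)
      rw [Nat.cast_one, one_mul, Fin.sum_univ_succ] at h1
      simpa only [Fin.cons_zero, Fin.cons_succ] using h1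
    · have h1 := rel_value h τ hχ hc hv (v' := Fin.cons (α := fun _ => ℂ) v₀ v') (by
        intro i
        refine Fin.cases ?_ (fun i => ?_) i
        · exact hv₀
        · exact hv' i)
      rw [pow_one, Fin.prod_univ_succ] at h1
      simpa only [Fin.cons_zero, Fin.cons_succ] using h1
    · have h1 := rel_defect h σ τ hχ hc hd (d' := Fin.cons (α := fun _ => ℂˣ) d₀ d') (by
        intro i
        refine Fin.cases ?_ (fun i => ?_) i
        · exact hd₀
        · exact hd' i)
      rw [pow_one, Fin.prod_univ_succ] at h1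
      simpa only [Fin.cons_zero, Fin.cons_succ] using h1
  refine ⟨hmain, ?_, ?_⟩
  · intro M P σ τ hb E χ hχ hor
    obtain ⟨m, r, x, k, hx, hm, h⟩ := hmain E χ hχ
    obtain ⟨d, hd, -⟩ := existsUnique_isDefect P σ τ hχ
    obtain ⟨d₀, hd₀, hu⟩ := existsUnique_isDefect P σ τ triv_isChr
    have h1 := (h M P τ).2.2 σ d d₀ (fun _ => 1) hd hd₀ (fun i => hb _ (hx i))
    have h2 : d₀ ^ m = 1 := by
      rcases hor with h0 | h0
      · have h3 : (m : ℂ) = ((0 : ℤ) : ℂ) := hm.trans h0.symm
        rw [Int.cast_inj.mp h3, zpow_zero]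
      · rw [← hu 1 h0, one_zpow]
    have h4 : d = 1 := by
      rw [h1, h2, one_mul]
      exact Finset.prod_eq_one fun i _ => one_zpow _
    rw [← h4]
    exact hd
  · intro M P τ ht hb E χ hχ v hv
    obtain ⟨m, r, x, k, hx, hm, h⟩ := hmain E χ hχ
    choose v' hv' _ using fun i => existsUnique_isValue P τ (hx i).isChr
    obtain ⟨v₀, hv₀, -⟩ := existsUnique_isValue P τ triv_isChr
    have h1 := (h M P τ).2.1 v v₀ (fun i => v' i) hv hv₀ hv'
    rw [h1, ← mem_QB]
    exact mul_mem (zpow_mem (mem_QB.mpr (ht _ hv₀)) _)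
      (prod_mem fun i _ => zpow_mem (mem_QB.mpr (hb _ (hx i) _ (hv' i))) _)

end Pool.Agent.Results.MP_cd171c_nt.LargeRankTwists
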