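import Mathlib
import Pool.Agent.J4.H61.DP.Square

set_option autoImplicit false

/-!
# Deligne's conjecture at the centre: orthogonal Artin twists, and the squares of all Artin values

`G` is the Galois group of a finite Galois extension `K/ℚ`; `E` is the field of coefficients, which
contains the roots of unity of order the exponent of `G`; `L τ χ s` and `P τ χ` are the L-function
of the twist `M ⊗ χ` of a motive `M` at the embedding `τ` of `E` and its Deligne period, for an
irreducible complex character `χ` of `G`.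

Assume the functional equation `L(χ, s) = w(χ, s) L(χ^∨, 2c - s)` at its centre `c`, and Deligne's
conjecture at `c` for the monomial twists (the characters induced from linear characters).  Assume
further that one of the following holds.

* `L(M/K, s)` vanishes at `c` to order at most two;
* (any order of vanishing) for every `g ∈ G` the linear characters `ψ` of the cyclic group `⟨g⟩` for
  which `L(M ⊗ Ind ψ, s)` vanishes at `c` lie in one pair `ψ, ψ⁻¹`.

Then Deligne's conjecture holds for every orthogonal Artin twist without pole at `c`, and for every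
Artin twist `ρ` without pole, whose period satisfies the relation which is expected from the
functional equation, the SQUARE of the value satisfies it:
`L(M ⊗ ρ, c) ^ 2 ∈ E · c⁺(M ⊗ ρ) ^ 2`, compatibly with all embeddings of `E`.

No hypothesis on quaternion sections (`Pool.Agent.R389.main_two`) and no rationality of the
coefficients of `ρ` (`Pool.Agent.R389.main_rat`) is needed.

Method.  In the case of determinant one the orders of vanishing, divided by half their degree, are on
every hyperelementary subgroup either `ψ + ψ⁻¹` or an irreducible character of quaternionic type.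
Such a character has even multiplicity in every real representation and in every `f + f^∨`, so that
these are, modulo monomial characters whose L-values do not vanish, multiples of the regular character.
In the other cases the theorems of the library (`Pool.Agent.R389`) apply.
-/

namespace Pool.Agent.Results.MP_cd171c_nt.OrthogonalTwists

open Pool.Agent.R389 Pool.Agent.H541R3.ART Filter Topology

/-- the dual `χ^∨ (g) = χ (g⁻¹)` of a character -/
def dual {G : Type} [Group G] (χ : G → ℂ) (g : G) : ℂ := χ g⁻¹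

/-- `L(M ⊗ f, s)` has no pole at `c`; here `f` is the sum of `m χ` copies of `χ` over the irreducible
characters `χ`, and `L(M ⊗ f, s)` is the product of the `L(M ⊗ χ, s) ^ m χ` -/
def NoPole {G : Type} [Group G] (l : (G → ℂ) → ℂ → ℂ) (c : ℂ) (f : G → ℂ) : Prop :=
  ∀ m : (G → ℂ) → ℕ, IsDecomp f m → 0 ≤ meromorphicOrderAt (fun s => ∏ᶠ χ ∈ Irr G, l χ s ^ m χ) c

/-- the order of `L(M ⊗ f, s)` at `c` is not zero -/
def Vanishes {G : Type} [Group G] (l : (G → ℂ) → ℂ → ℂ) (c : ℂ) (f : G → ℂ) : Prop :=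
  ∃ m : (G → ℂ) → ℕ, IsDecomp f m ∧ meromorphicOrderAt (fun s => ∏ᶠ χ ∈ Irr G, l χ s ^ m χ) c ≠ 0

theorem result {G : Type} [Group G] [Finite G] {E : Type} [Field E] {ζ : E}
    (hζ : IsPrimitiveRoot ζ (Monoid.exponent G))
    {L : (E →+* ℂ) → (G → ℂ) → ℂ → ℂ} {P w : (E →+* ℂ) → (G → ℂ) → ℂ} {c : ℂ}
    -- the L-functions are meromorphic and not zero, the periods are not zero
    (hL : ∀ τ, ∀ χ ∈ Irr G, MeromorphicAt (L τ χ) c ∧ meromorphicOrderAt (L τ χ) c ≠ ⊤)
    (hP : ∀ τ, ∀ χ ∈ Irr G, P τ χ ≠ 0)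
    -- the functional equation at the centre `c`
    (hfe : ∀ τ, ∀ χ ∈ Irr G, w τ χ ≠ 0 ∧
      Tendsto (fun s => L τ χ s / L τ (dual χ) (2 * c - s)) (𝓝[≠] c) (𝓝 (w τ χ)))
    -- Deligne's conjecture for the monomial twists
    (hmon : ∀ (U : Subgroup G) (ψ : U →* Eˣ),
      Deligne L P c (ind U (fun u => ((ψ u : Eˣ) : E))))
    (τ₀ : E →+* ℂ)
    -- the order at `c` over the top field is at most two, or the zeros form conjugate pairs
    {deg : (G → ℂ) → ℕ} (hdeg : ∀ χ ∈ Irr G, χ 1 = deg χ)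
    (hz : meromorphicOrderAt (fun s => ∏ᶠ χ ∈ Irr G, L τ₀ χ s ^ deg χ) c ≤ 2 ∨
      ∀ (g : G) (ψ φ : Subgroup.zpowers g →* ℂˣ),
        Vanishes (L τ₀) c (ind (Subgroup.zpowers g) (fun x => ((ψ x : ℂˣ) : ℂ))) →
        Vanishes (L τ₀) c (ind (Subgroup.zpowers g) (fun x => ((φ x : ℂˣ) : ℂ))) →
        φ = ψ ∨ φ = ψ⁻¹) :
    -- orthogonal twists
    (∀ (V : Type) [AddCommGroup V] [Module ℝ V] [FiniteDimensional ℝ V]
      (ρ : Representation ℝ G V) (F : G → E), (∀ g, τ₀ (F g) = ((ρ.character g : ℝ) : ℂ)) →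
      NoPole (L τ₀) c (fun g => τ₀ (F g)) → Deligne L P c F) ∧
    -- all twists
    (∀ (V : Type) [AddCommGroup V] [Module E V] [FiniteDimensional E V]
      (ρ : Representation E G V), NoPole (L τ₀) c (fun g => τ₀ (ρ.character g)) →
      Deligne L P c (fun g => ρ.character g + ρ.character g⁻¹) ∧
      ∀ u : E, (∀ (τ : E →+* ℂ) (m : (G → ℂ) → ℕ), IsDecomp (fun g => τ (ρ.character g)) m →
        ∏ᶠ χ ∈ Irr G, (w τ χ * P τ (dual χ)) ^ m χ = τ u * ∏ᶠ χ ∈ Irr G, P τ χ ^ m χ) →
      ∃ e : E, ∀ (τ : E →+* ℂ) (m : (G → ℂ) → ℕ), IsDecomp (fun g => τ (ρ.character g)) m →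
        Tendsto (fun s => (∏ᶠ χ ∈ Irr G, L τ χ s ^ m χ) ^ 2) (𝓝[≠] c)
          (𝓝 (τ e * (∏ᶠ χ ∈ Irr G, P τ χ ^ m χ) ^ 2))) := by
  have hsym : ∀ χ ∈ Irr G, meromorphicOrderAt (L τ₀ χ) c
      = meromorphicOrderAt (L τ₀ (Pool.Agent.J4.H61.DP.dual χ)) c := by
    intro χ hχ
    have h1 := hL τ₀ χ hχ
    have h2 := hL τ₀ (Pool.Agent.J4.H61.DP.dual χ) (Pool.Agent.J4.H61.DP.irr_dual hχ)
    exact Pool.Agent.J4.H61.DP.order_of_fe h1.1 h2.1 h2.2 (hfe τ₀ χ hχ).1 (hfe τ₀ χ hχ).2
  have hz' : meromorphicOrderAt (fun s => ∏ᶠ χ ∈ Irr G, L τ₀ χ s ^ deg χ) c ≤ 2 ∨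
      Pool.Agent.J4.H61.DP.Pairs (theta (ords (L τ₀) c) : G → ℂ) := by
    rcases hz with h | h
    · exact Or.inl h
    · exact Or.inr (Pool.Agent.J4.H61.DP.pairs_of hζ hL τ₀ h)
  refine ⟨?_, ?_⟩
  · intro V _ _ _ ρ F hF hpole
    have h1 : (fun g => τ₀ (F g)) = Pool.Agent.J4.H61.DP.rch ρ := funext hF
    refine Pool.Agent.J4.H61.DP.main_orth hζ hL hP hmon τ₀ hsym hdeg hz' ?_ ?_ hpole
    · rw [h1]
      exact Pool.Agent.J4.H61.DP.rch_mem ρ
    · rw [h1]
      exact Pool.Agent.J4.H61.DP.orth_rch ρ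
  · intro V _ _ _ ρ hpole
    have h1 := Pool.Agent.J4.H61.DP.main_dual hζ hL hP hmon τ₀ hsym hdeg hz' ρ hpole
    refine ⟨h1, fun u hu => ?_⟩
    exact Pool.Agent.J4.H61.DP.main_sq hL hfe h1 hu

end Pool.Agent.Results.MP_cd171c_nt.OrthogonalTwists
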