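import Mathlib
import Pool.Agent.J4.H58.DEL.Asm

/-!
# Deligne's period conjecture for the Artin twists of a motive: only the motive itself, the totally
odd twists over totally real fields and the everywhere unramified twists over totally complex fields
matter

The other definitions are in `Pool.Agent.J4.H58.DEL.Defs` and `Pool.Agent.K4H74.SC.Core`.
-/

set_option autoImplicit false

namespace Pool.Agent.Results.MP_cd171c_nt.UnramifiedTwists

open NumberField Pool.Agent.K4H74 Pool.Agent.K4H74.SK Pool.Agent.K4H77 Pool.Agent.K4H34.AL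
  Pool.Agent.J4.H58.DEL

/-- The decomposition group of the ideal `P` of the integers of `L`. -/
def decompGroup {E : Ext} (P : Ideal (𝓞 E.L)) : Set (G E) :=
  {g | ∀ x y : 𝓞 E.L, (y : E.L) = emb g x → (y ∈ P ↔ x ∈ P)}

/-- The inertia group of the ideal `P` of the integers of `L`. -/
def inertiaGroup {E : Ext} (P : Ideal (𝓞 E.L)) : Set (G E) :=
  {g | ∀ x y : 𝓞 E.L, (y : E.L) = emb g x → y - x ∈ P}

/-- `L / K` is unramified at all finite primes, and the primes above `m` split completely. -/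
def UnramifiedSplit (m : ℕ) (E : Ext) : Prop :=
  ∀ P : Ideal (𝓞 E.L), P.IsMaximal → (∀ g ∈ inertiaGroup P, g = 1) ∧
    ((m : 𝓞 E.L) ∈ P → ∀ g ∈ decompGroup P, g = 1)

lemma mem_decomp {E : Ext} {P : Ideal (𝓞 E.L)} (g : G E) :
    g ∈ decompGroup P ↔ (show E.L ≃ₐ[E.K] E.L from g) ∈ SL.decomp E.K P := by
  constructor
  · intro h x
    exact h x _ rfl
  · intro h x y hy
    have h1 : y = SL.gi (show E.L ≃ₐ[E.K] E.L from g) x := RingOfIntegers.ext hy
    rw [h1]
    exact h x

lemma mem_inertia {E : Ext} {P : Ideal (𝓞 E.L)} (g : G E) :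
    g ∈ inertiaGroup P ↔ (show E.L ≃ₐ[E.K] E.L from g) ∈ SL.inertia E.K P := by
  constructor
  · intro h x
    exact h x _ rfl
  · intro h x y hy
    have h1 : y = SL.gi (show E.L ≃ₐ[E.K] E.L from g) x := RingOfIntegers.ext hy
    rw [h1]
    exact h x

/-- The linear character `ψ` takes the value `-1` at all complex conjugations. -/
def TotallyOdd {E : Ext} (ψ : G E →* ℂˣ) : Prop := ∀ t : G E, IsCC t → ψ t = -1

/-- The basic characters: the trivial character of `ℚ` (the twist is `M` itself), the totally odd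
linear characters of the extensions of the totally real fields, and the faithful linear characters
of the (cyclic) extensions `L / K`, `K` totally complex, which are unramified at all finite primes
and in which the primes above `m` split completely (for `L = K`: the motive `M` over `K`). -/
inductive Basic (m : ℕ) : Pair → Prop
  | rational : Basic m ⟨⟨ℚ, ℚ⟩, fun _ => 1⟩
  | odd (E : Ext) (ψ : G E →* ℂˣ) : IsTotallyReal E.K → TotallyOdd ψ → Basic m ⟨E, lin ψ⟩
  | unramified (E : Ext) (ψ : G E →* ℂˣ) : IsTotallyComplex E.K → UnramifiedSplit m E →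
      Function.Injective ψ → Basic m ⟨E, lin ψ⟩

lemma Basic.isChr {m : ℕ} {x : Pair} (h : Basic m x) : IsChr x.2 := by
  cases h with
  | rational =>
    have h1 := isChr_lin (E := ⟨ℚ, ℚ⟩) 1
    have h2 : lin (1 : G ⟨ℚ, ℚ⟩ →* ℂˣ) = fun _ => 1 := by
      funext g
      simp [lin]
    rwa [h2] at h1
  | odd E ψ _ _ => exact isChr_lin ψ
  | unramified E ψ _ _ _ => exact isChr_lin ψ

/-- Let `M` be a motive over `ℚ` with coefficients in `F`, of odd weight `w` and rank `2 m`, let `s`
be an integer with `2 s > w + 2`, and let `c⁺`, `c⁻` be the periods of `M(s)`. For a character `χ`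
of the Galois group of an extension `L / K` of number fields and an embedding `τ` of `F`, the series
for `log L(M_K ⊗ χ, s)` at `τ` converges, and there are the normalised value
`N_τ(χ) = L(M_K ⊗ χ, s) / (c⁺ ^ a c⁻ ^ b)` and, for every automorphism `σ` of `ℂ`, exactly one
defect `d(σ, τ, χ)` with `σ(N_τ(χ)) δ ^ m = d N_{σ τ}(χ^σ)`, `δ` the determinant of `σ` on the
representation induced from `χ^σ`; Deligne's conjecture for all Artin twists of `M` at `s` says that
`d(σ, τ, χ) = 1`.

(1) For every `q ≥ 1` and every `χ` there are `n ≥ 1`, basic characters `ψ_i` (for `q`) and integers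
`k_i`, the same ones for all `M`, `s`, `c⁺`, `c⁻`, `σ`, `τ`, such that
`L(M_K ⊗ χ, s)^n = ∏ L(M ⊗ ψ_i, s)^(k_i)` (for the logarithms), and the same is true for the
normalised values and for the defects.

(2) For every `σ` and `τ`: all the defects are roots of unity if the defects of the basic characters
are.

(3) For every `τ`: all the normalised values are algebraic if those of the basic characters are.

(4) For every `χ` there is an `n ≥ 1` such that for all `M` and `s`: if Deligne's conjecture is true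
for the twists of `M` by the basic characters, then `N_τ(χ)^n` is in the field generated by `τ(F)`
and the values of `χ`. -/
theorem result :
    -- the values and the defects
    (∀ (M : Motive) (P : Point M) (τ : M.Emb) (E : Ext) (χ : G E → ℂ), IsChr χ →
      (∃ l : ℂ, HasSum (lTerm M P.s τ χ) l) ∧ (∃! v : ℂˣ, IsValue P τ χ v) ∧
        ∀ σ : ℂ ≃+* ℂ, ∃! d : ℂˣ, IsDefect P σ τ χ d) ∧
    ∀ q : ℕ, q ≠ 0 →
      -- (1)
      (∀ (E : Ext) (χ : G E → ℂ), IsChr χ → ∃ n : ℕ, 0 < n ∧
        ∃ (r : ℕ) (x : Fin r → Pair) (k : Fin r → ℤ), (∀ i, Basic q (x i)) ∧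
          ∀ (M : Motive) (P : Point M) (τ : M.Emb),
            (∀ (l : ℂ) (l' : Fin r → ℂ), HasSum (lTerm M P.s τ χ) l →
              (∀ i, HasSum (lTerm M P.s τ (x i).2) (l' i)) → n * l = ∑ i, k i * l' i) ∧
            (∀ (v : ℂ) (v' : Fin r → ℂ), IsValue P τ χ v →
              (∀ i, IsValue P τ (x i).2 (v' i)) → v ^ n = ∏ i, v' i ^ k i) ∧
            ∀ (σ : ℂ ≃+* ℂ) (d : ℂˣ) (d' : Fin r → ℂˣ), IsDefect P σ τ χ d →
              (∀ i, IsDefect P σ τ (x i).2 (d' i)) → d ^ n = ∏ i, d' i ^ k i) ∧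
      -- (2)
      (∀ (M : Motive) (P : Point M) (σ : ℂ ≃+* ℂ) (τ : M.Emb),
        (∀ x : Pair, Basic q x → ∀ d : ℂˣ, IsDefect P σ τ x.2 d → IsOfFinOrder d) →
          ∀ (E : Ext) (χ : G E → ℂ), IsChr χ → ∀ d : ℂˣ, IsDefect P σ τ χ d → IsOfFinOrder d) ∧
      -- (3)
      (∀ (M : Motive) (P : Point M) (τ : M.Emb),
        (∀ x : Pair, Basic q x → ∀ v : ℂ, IsValue P τ x.2 v → IsAlgebraic ℚ v) →
          ∀ (E : Ext) (χ : G E → ℂ), IsChr χ → ∀ v : ℂ, IsValue P τ χ v → IsAlgebraic ℚ v) ∧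
      -- (4)
      ∀ (E : Ext) (χ : G E → ℂ), IsChr χ → ∃ n : ℕ, 0 < n ∧ ∀ (M : Motive) (P : Point M),
        (∀ x : Pair, Basic q x → ∀ (σ : ℂ ≃+* ℂ) (τ : M.Emb), IsDefect P σ τ x.2 1) →
          ∀ (τ : M.Emb) (v : ℂ), IsValue P τ χ v →
            v ^ n ∈ Subfield.closure (Set.range τ ∪ Set.range χ) := by
  refine ⟨fun M P τ E χ hχ => ⟨lTerm_summable P τ χ, existsUnique_isValue P τ hχ,
    fun σ => existsUnique_isDefect P σ τ hχ⟩, fun q hq => ?_⟩
  have hmain : ∀ (E : Ext) (χ : G E → ℂ), IsChr χ → ∃ n : ℕ, 0 < n ∧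
        ∃ (r : ℕ) (x : Fin r → Pair) (k : Fin r → ℤ), (∀ i, Basic q (x i)) ∧
          ∀ (M : Motive) (P : Point M) (τ : M.Emb),
            (∀ (l : ℂ) (l' : Fin r → ℂ), HasSum (lTerm M P.s τ χ) l →
              (∀ i, HasSum (lTerm M P.s τ (x i).2) (l' i)) → n * l = ∑ i, k i * l' i) ∧
            (∀ (v : ℂ) (v' : Fin r → ℂ), IsValue P τ χ v →
              (∀ i, IsValue P τ (x i).2 (v' i)) → v ^ n = ∏ i, v' i ^ k i) ∧
            ∀ (σ : ℂ ≃+* ℂ) (d : ℂˣ) (d' : Fin r → ℂˣ), IsDefect P σ τ χ d →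
              (∀ i, IsDefect P σ τ (x i).2 (d' i)) → d ^ n = ∏ i, d' i ^ k i := by
    intro E χ hχ
    obtain ⟨n, hn, r, x, k, hx, h⟩ := power_form3 allI (Basic q) hq
      Basic.rational
      (fun E hE ψ hψ => Basic.odd E ψ hE hψ)
      (fun E hE hP ψ hψ => Basic.unramified E ψ hE (fun P hPm =>
        ⟨fun g hg => (hP P hPm).1 g ((mem_inertia g).mp hg),
          fun hmP g hg => (hP P hPm).2 hmP g ((mem_decomp g).mp hg)⟩) hψ) hχ
    refine ⟨n, hn, r, x, k, hx, fun M P τ => ⟨fun l l' hl hl' => rel_log h τ hl hl',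
      fun v v' hv hv' => rel_value h τ hχ (fun i => (hx i).isChr) hv hv',
      fun σ d d' hd hd' => rel_defect h σ τ hχ (fun i => (hx i).isChr) hd hd'⟩⟩
  refine ⟨hmain, ?_, ?_, ?_⟩
  · intro M P σ τ hb E χ hχ d hd
    obtain ⟨n, hn, r, x, k, hx, h⟩ := hmain E χ hχ
    choose d' hd' _ using fun i => existsUnique_isDefect P σ τ (hx i).isChr
    have h1 := (h M P τ).2.2 σ d d' hd hd'
    have h2 : d ^ n ∈ CommGroup.torsion ℂˣ := by
      rw [h1]
      exact Subgroup.prod_mem _ fun i _ => Subgroup.zpow_mem _ (hb _ (hx i) _ (hd' i)) _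
    exact (isOfFinOrder_pow.mp h2).resolve_right hn.ne'
  · intro M P τ hb E χ hχ v hv
    obtain ⟨n, hn, r, x, k, hx, h⟩ := hmain E χ hχ
    choose v' hv' _ using fun i => existsUnique_isValue P τ (hx i).isChr
    have h1 := (h M P τ).2.1 v (fun i => v' i) hv hv'
    refine IsAlgebraic.of_pow hn ?_
    rw [h1, ← mem_QB]
    exact prod_mem fun i _ => zpow_mem (mem_QB.mpr (hb _ (hx i) _ (hv' i))) _
  · intro E χ hχ
    obtain ⟨n, hn, r, x, k, hx, h⟩ := hmain E χ hχ
    have hfin : Finite (E.L →+* ℂ) := inferInstance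
    refine ⟨n * Nat.card (Equiv.Perm (E.L →+* ℂ)), Nat.mul_pos hn Nat.card_pos,
      fun M P hb τ v hv => ?_⟩
    have hG : Finite (G E) := inferInstanceAs (Finite (E.L ≃ₐ[E.K] E.L))
    have hFc : Countable M.F := by
      have : Algebra.IsAlgebraic ℚ M.F := inferInstance
      have h2 := Algebra.IsAlgebraic.cardinalMk_le_max ℚ M.F
      rw [Cardinal.mkRat, max_self] at h2
      exact Cardinal.mk_le_aleph0_iff.mp h2
    refine mem_of_fixed (countable_closure ((Set.countable_range _).union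
      (Set.countable_range _))) fun σ hσ => ?_
    have hτ : Motive.conj σ τ = τ := by
      apply RingHom.ext
      intro z
      exact hσ _ (Subfield.subset_closure (Or.inl ⟨z, rfl⟩))
    have hχσ : cj σ χ = χ := by
      funext g
      exact hσ _ (Subfield.subset_closure (Or.inr ⟨g, rfl⟩))
    obtain ⟨d, ⟨w, w', δ, hw, hw', hδ, hd⟩, -⟩ := existsUnique_isDefect P σ τ hχ
    have h1 : d ^ n = 1 := by
      have := (h M P τ).2.2 σ d (fun _ => 1) ⟨w, w', δ, hw, hw', hδ, hd⟩
        (fun i => hb _ (hx i) σ τ)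
      rw [this]
      simp
    rw [hτ, hχσ] at hw'
    have hv0 := valHom_val hχ hv
    have e1 : w = v := by rw [← hv0]; exact (valHom_val hχ hw).symm
    have e2 : w' = v := by rw [← hv0]; exact (valHom_val hχ hw').symm
    rw [e1, e2] at hd
    have h3 := congrArg (fun z => z ^ (n * Nat.card (Equiv.Perm (E.L →+* ℂ)))) hd
    simp only [mul_pow] at h3
    have h4 : (δ ^ M.m) ^ (n * Nat.card (Equiv.Perm (E.L →+* ℂ))) = 1 := by
      rw [← pow_mul, mul_comm, mul_comm n, mul_assoc, pow_mul, isDet_pow hδ, one_pow]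
    have h5 : (d : ℂ) ^ (n * Nat.card (Equiv.Perm (E.L →+* ℂ))) = 1 := by
      rw [← Units.val_pow_eq_pow_val, pow_mul, h1, one_pow, Units.val_one]
    rw [h4, h5, mul_one, one_mul, ← map_pow] at h3
    exact h3

end Pool.Agent.Results.MP_cd171c_nt.UnramifiedTwists
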