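import Mathlib
import Pool.Agent.J4.H61.DP.Fam3

set_option autoImplicit false

/-!
# Deligne's conjecture for Artin twists when all zeros come from a family of Galois subfields

`G` is the Galois group of a finite Galois extension `K/ℚ`; `E` is the field of coefficients, which
contains the roots of unity of order the exponent of `G`; `L τ χ s` and `P τ χ` are the L-function
of the twist `M ⊗ χ` of a motive `M` at the embedding `τ` of `E` and its Deligne period, for an
irreducible complex character `χ` of `G`.

Let `F_1, F_2, …` be arbitrary Galois subfields of `K`, that is, let `𝒦` be an arbitrary set of normal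
subgroups of `G`.  A linear character `ψ` of a subgroup `U` is called new if it is nontrivial on
`U ∩ Gal(K/F_i)` for every `i`; equivalently, no constituent of `Ind ψ` factors through one of the
`Gal(F_i/ℚ)`.  Assume Deligne's conjecture at the point `c` for the monomial twists and assume that
`L(M ⊗ Ind ψ, c) ≠ 0` for all new `ψ`: all zeros at `c` come from the `F_i`.  Then:

* for every Artin twist `ρ` none of whose constituents factors through one of the `Gal(F_i/ℚ)`,
  Deligne's conjecture holds, and the value at `c` is not zero;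
* if Deligne's conjecture holds for the Artin twists of the fields `F_i`, then it holds for ALL Artin
  twists of `K`.

For example, if `K = F_1 F_2` and there are no new zeros in the compositum, the conjecture for the
twists by tensor products follows from the one for the two factors.

Method.  Brauer induction relative to a family of normal subgroups
(`Pool.Agent.J4.H61.DP.family_brauer`): a virtual character none of whose constituents is trivial on one
of the members of a family of normal subgroups is an integral combination of monomial characters with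
the same property.  The case of one normal subgroup is `Pool.Agent.R389.relative_brauer`; the proof for
a family is by induction on its size, averaging over the pairwise intersections.
-/

namespace Pool.Agent.Results.MP_cd171c_nt.ZerosFromSubfields

open Pool.Agent.R389 Pool.Agent.H541R3.ART Filter Topology

theorem result {G : Type} [Group G] [Finite G] {E : Type} [Field E] {ζ : E}
    (hζ : IsPrimitiveRoot ζ (Monoid.exponent G))
    {L : (E →+* ℂ) → (G → ℂ) → ℂ → ℂ} {P : (E →+* ℂ) → (G → ℂ) → ℂ} {c : ℂ}
    -- the L-functions are meromorphic and not zero, the periods are not zero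
    (hL : ∀ τ, ∀ χ ∈ Irr G, MeromorphicAt (L τ χ) c ∧ meromorphicOrderAt (L τ χ) c ≠ ⊤)
    (hP : ∀ τ, ∀ χ ∈ Irr G, P τ χ ≠ 0)
    -- Deligne's conjecture for the monomial twists
    (hmon : ∀ (U : Subgroup G) (ψ : U →* Eˣ),
      Deligne L P c (ind U (fun u => ((ψ u : Eˣ) : E))))
    (τ₀ : E →+* ℂ)
    -- a set of normal subgroups
    (𝒦 : Set (Subgroup G)) (h𝒦 : ∀ K ∈ 𝒦, K.Normal)
    -- the L-functions of the new monomial characters do not vanish at `c`
    (hnew : ∀ (U : Subgroup G) (ψ : U →* ℂˣ), (∀ K ∈ 𝒦, ∃ u : U, (u : G) ∈ K ∧ ψ u ≠ 1) →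
      ∀ m : (G → ℂ) → ℕ, IsDecomp (ind U (fun u => ((ψ u : ℂˣ) : ℂ))) m →
        meromorphicOrderAt (fun s => ∏ᶠ χ ∈ Irr G, L τ₀ χ s ^ m χ) c ≤ 0) :
    -- new twists
    (∀ (V : Type) [AddCommGroup V] [Module E V] [FiniteDimensional E V]
      (ρ : Representation E G V), (∀ K ∈ 𝒦, ∀ v, (∀ k ∈ K, ρ k v = v) → v = 0) →
      ∃ e : E, e ≠ 0 ∧ ∀ (τ : E →+* ℂ) (m : (G → ℂ) → ℕ),
        IsDecomp (fun g => τ (ρ.character g)) m →
        Tendsto (fun s => ∏ᶠ χ ∈ Irr G, L τ χ s ^ m χ) (𝓝[≠] c)
          (𝓝 (τ e * ∏ᶠ χ ∈ Irr G, P τ χ ^ m χ))) ∧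
    -- all twists
    ((∀ K ∈ 𝒦, ∀ (W : Type) [AddCommGroup W] [Module E W] [FiniteDimensional E W]
      (σ : Representation E G W), (∀ k ∈ K, ∀ w, σ k w = w) → Deligne L P c σ.character) →
      ∀ (V : Type) [AddCommGroup V] [Module E V] [FiniteDimensional E V]
      (ρ : Representation E G V), Deligne L P c ρ.character) := by
  classical
  have hfin : 𝒦.Finite := Set.toFinite 𝒦
  let l : List (Subgroup G) := hfin.toFinset.toList
  have hl : ∀ K, K ∈ l ↔ K ∈ 𝒦 := by
    intro K
    rw [Finset.mem_toList, Set.Finite.mem_toFinset]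
  have h1 : ∀ K ∈ l, K.Normal := fun K hK => h𝒦 K ((hl K).mp hK)
  have h2 : ∀ (U : Subgroup G) (ψ : U →* ℂˣ), (∀ K ∈ l, ∃ u : U, (u : G) ∈ K ∧ ψ u ≠ 1) →
      ∀ m : (G → ℂ) → ℕ, IsDecomp (ind U (lc ψ)) m →
        meromorphicOrderAt (fun s => ∏ᶠ χ ∈ Irr G, L τ₀ χ s ^ m χ) c ≤ 0 :=
    fun U ψ h => hnew U ψ fun K hK => h K ((hl K).mpr hK)
  refine ⟨?_, ?_⟩
  · intro V _ _ _ ρ hρ
    obtain ⟨e, he, hD⟩ := Pool.Agent.J4.H61.DP.fam_new hζ hL hP hmon τ₀ h1 h2 ρ
      (fun K hK => hρ K ((hl K).mp hK))
    exact ⟨e, he, fun τ m hm => hD.spec τ m hm⟩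
  · intro hold V _ _ _ ρ
    exact Pool.Agent.J4.H61.DP.fam_all hζ hL hP hmon τ₀ h1 h2
      (fun K hK => hold K ((hl K).mp hK)) ρ

end Pool.Agent.Results.MP_cd171c_nt.ZerosFromSubfields
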